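import Pool.Agent.V5helper41.PD.Stm

set_option autoImplicit false

/-! # Project PD, job KUM -/

namespace V5helper77.PD

open IntermediateField Polynomial
open Pool.Agent.H58P (Qb)
open Pool.Agent.W237.RK
open V5helper41.PD

theorem t_KUM (hG : S_GAL) : S_KUM := by
  intro a n p θ ha hn hθ hp hpn s₀ hs₀ hgen hρ α hα hαp
  obtain ⟨ρ, hρdef⟩ : ∃ ρ, ρ = θ ^ (n / p) := ⟨_, rfl⟩
  rw [← hρdef] at hρ ⊢
  have hρp : ρ ^ p = (a : Qb) := by
    rw [hρdef, ← pow_mul, Nat.div_mul_cancel hpn, hθ]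
  have ha0 : (a : Qb) ≠ 0 := by
    have : a ≠ 0 := by omega
    exact_mod_cast this
  have hρ0 : ρ ≠ 0 := by
    intro h0
    rw [h0, zero_pow hp.ne_zero] at hρp
    exact ha0 hρp.symm
  obtain ⟨ω, hω⟩ : ∃ ω, ω = s₀ ρ / ρ := ⟨_, rfl⟩
  have hω1 : s₀ ρ = ω * ρ := by rw [hω, div_mul_cancel₀ _ hρ0]
  have hωp : ω ^ p = 1 := by
    rw [hω, div_pow, ← map_pow, hρp, map_natCast, div_self ha0]
  have hωK : ω ∈ Kmu := subset_adjoin ℚ _ ⟨p, hp.pos, hωp⟩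
  have hωj : ∀ j : ℕ, (s₀ ^ j) ρ = ω ^ j * ρ := by
    intro j
    induction j with
    | zero => simp
    | succ j ih =>
      rw [pow_succ', AlgEquiv.mul_apply, ih, map_mul, map_pow, hs₀ ω hωK, hω1]
      ring
  have hKle : ∀ x : Qb, Kmu ≤ Kx x := fun x => le_sup_left
  have hself : ∀ x : Qb, x ∈ Kx x := fun x => (le_sup_right : ℚ⟮x⟯ ≤ Kx x) (mem_adjoin_simple_self ℚ x)
  have hρθ : ρ ∈ Kx θ := by
    rw [hρdef]
    exact pow_mem (hself θ) _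
  have hω_ne : ω ≠ 1 := by
    intro h1
    apply hρ
    refine hG Kmu ρ fun s hs => ?_
    obtain ⟨j, hj⟩ := hgen s hs
    rw [hj ρ hρθ, hωj, h1, one_pow, one_mul]
  have horder : orderOf ω = p := orderOf_eq_prime hωp hω_ne (hp := ⟨hp⟩)
  refine hG (Kx ρ) α fun g hg => ?_
  obtain ⟨j, hj⟩ := hgen g (fun x hx => hg x (hKle ρ hx))
  have h1 : ω ^ j = 1 := by
    have h2 : g ρ = ρ := hg ρ (hself ρ)
    rw [hj ρ hρθ, hωj] at h2
    exact mul_right_cancel₀ hρ0 (h2.trans (one_mul ρ).symm)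
  have h3 : p ∣ j := by
    rw [← horder]
    exact orderOf_dvd_of_pow_eq_one h1
  rw [hj α hα]
  exact (hαp j).2 h3

end V5helper77.PD
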